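import Pool.Agent.H75.GG.Targets2

/-!
# UN1: the union bound for finitely many events
-/

set_option autoImplicit false

namespace Pool.Agent.H1.GG

open Finset Filter Pool.Agent.H6.NB Pool.Agent.H70.OQ Pool.Agent.H75.GS Pool.Agent.H75.GG

theorem glue_eq {I : Type} [DecidableEq I] {A : I → Type} (S : Finset I) (ω : ∀ i, A i)
    (τ : ∀ i : S, A i) : glue S ω τ = Function.updateFinset ω S τ := by
  funext i
  unfold glue Function.updateFinset
  by_cases h : i ∈ S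
  · rw [dif_pos h, dif_pos h]
  · rw [dif_neg h, dif_neg h]

theorem avg_union {I : Type} [DecidableEq I] {A : I → Type} [∀ i, Fintype (A i)]
    (w : ∀ i, A i → ℝ) (T S D₀ : Finset I) (h : Disjoint T S) (hD : T ∪ S = D₀)
    (f : (∀ i, A i) → ℝ) (ω : ∀ i, A i) :
    ∑ τ : ∀ i : D₀, A i, (∏ i, w i.1 (τ i)) * f (glue D₀ ω τ) =
    ∑ t₁ : ∀ i : T, A i, (∏ i, w i.1 (t₁ i)) *
      ∑ t₂ : ∀ i : S, A i, (∏ i, w i.1 (t₂ i)) * f (glue S (glue T ω t₁) t₂) := by
  subst hD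
  rw [← (Equiv.piFinsetUnion A h).sum_comp, Fintype.sum_prod_type]
  refine Finset.sum_congr rfl fun t₁ _ => ?_
  rw [Finset.mul_sum]
  refine Finset.sum_congr rfl fun t₂ _ => ?_
  have h1 : glue (T ∪ S) ω (Equiv.piFinsetUnion A h (t₁, t₂)) =
      glue S (glue T ω t₁) t₂ := by
    rw [glue_eq, glue_eq, glue_eq, Function.updateFinset_updateFinset h]
  have h2 : ∏ i, w i.1 (Equiv.piFinsetUnion A h (t₁, t₂) i) =
      (∏ i, w i.1 (t₁ i)) * ∏ i, w i.1 (t₂ i) := by
    rw [← (Equiv.Finset.union T S h).prod_comp, Fintype.prod_sum_type]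
    congr 1
    · refine Finset.prod_congr rfl fun i _ => ?_
      exact congrArg (w i.1) (Equiv.piFinsetUnion_left A h i.2
        (Finset.mem_union_left S i.2))
    · refine Finset.prod_congr rfl fun i _ => ?_
      exact congrArg (w i.1) (Equiv.piFinsetUnion_right A h i.2
        (Finset.mem_union_right T i.2))
  rw [h1, h2, mul_assoc]

theorem wt_one {I : Type} [DecidableEq I] {A : I → Type} [∀ i, Fintype (A i)]
    (w : ∀ i, A i → ℝ) (hw : ∀ i, ∑ a, w i a = 1) (T : Finset I) :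
    ∑ τ : ∀ i : T, A i, ∏ i, w i.1 (τ i) = 1 := by
  have h := Finset.prod_univ_sum (fun i : T => (Finset.univ : Finset (A i.1)))
    (fun i a => w i.1 a)
  rw [Fintype.piFinset_univ] at h
  rw [← h]
  exact Finset.prod_eq_one fun i _ => hw i.1

theorem pf_UN1 : T_UN1 := by
  classical
  intro I E _ A _ _ w hw0 hw1 B S D δ _ hS F hF
  by_contra hcon
  push Not at hcon
  have ω₀ : ∀ i, A i := fun i => Classical.arbitrary (A i)
  have hW0 : ∀ (T : Finset I) (τ : ∀ i : T, A i), 0 ≤ ∏ i, w i.1 (τ i) := fun T τ =>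
    Finset.prod_nonneg fun i _ => hw0 i.1 _
  have hkey : ∀ e ∈ F, ∑ τ : ∀ i : F.biUnion S, A i, (∏ i, w i.1 (τ i)) *
      ic (B e (glue (F.biUnion S) ω₀ τ)) ≤ δ e := by
    intro e he
    rw [avg_union w (F.biUnion S \ S e) (S e) (F.biUnion S) Finset.sdiff_disjoint
      (Finset.sdiff_union_of_subset (Finset.subset_biUnion_of_mem S he))
      (fun ω => ic (B e ω)) ω₀]
    calc ∑ t₁ : ∀ i : (F.biUnion S \ S e : Finset I), A i, (∏ i, w i.1 (t₁ i)) *
          ∑ t₂ : ∀ i : S e, A i, (∏ i, w i.1 (t₂ i)) *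
            ic (B e (glue (S e) (glue (F.biUnion S \ S e) ω₀ t₁) t₂))
        ≤ ∑ t₁ : ∀ i : (F.biUnion S \ S e : Finset I), A i, (∏ i, w i.1 (t₁ i)) * δ e :=
          Finset.sum_le_sum fun t₁ _ => mul_le_mul_of_nonneg_left (hS e _) (hW0 _ t₁)
      _ = δ e := by rw [← Finset.sum_mul, wt_one w hw1, one_mul]
  have h1 : (1 : ℝ) ≤ ∑ τ : ∀ i : F.biUnion S, A i, (∏ i, w i.1 (τ i)) *
      ∑ e ∈ F, ic (B e (glue (F.biUnion S) ω₀ τ)) := by
    rw [← wt_one w hw1 (F.biUnion S)]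
    refine Finset.sum_le_sum fun τ _ => ?_
    refine le_mul_of_one_le_right (hW0 _ τ) ?_
    obtain ⟨e, he, hB⟩ := hcon (glue (F.biUnion S) ω₀ τ)
    have h2 : ic (B e (glue (F.biUnion S) ω₀ τ)) = 1 := by
      unfold ic
      rw [if_pos hB]
    rw [← h2]
    refine Finset.single_le_sum (f := fun e => ic (B e (glue (F.biUnion S) ω₀ τ)))
      (fun e _ => ?_) he
    unfold ic
    split_ifs
    · exact zero_le_one
    · exact le_rfl
  have h3 : ∑ τ : ∀ i : F.biUnion S, A i, (∏ i, w i.1 (τ i)) *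
      ∑ e ∈ F, ic (B e (glue (F.biUnion S) ω₀ τ)) ≤ ∑ e ∈ F, δ e := by
    simp only [Finset.mul_sum]
    rw [Finset.sum_comm]
    exact Finset.sum_le_sum hkey
  linarith

end Pool.Agent.H1.GG
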