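import Pool.Agent.H75.GG.Targets2

/-!
# UNQ: unique witnesses, and the members
-/

set_option autoImplicit false

namespace Pool.Agent.H1.GG

open Finset Filter Pool.Agent.H6.NB Pool.Agent.H70.OQ Pool.Agent.H75.GS Pool.Agent.H75.GG

theorem ex_ofFn (v : List Bool) (m : ℕ) (h : v.length = m) : ∃ z : Fin m → Bool,
    List.ofFn z = v := by
  subst h
  exact ⟨v.get, List.ofFn_get v⟩

theorem pf_UNQ (hLCG : T_LCG) (hSEE : T_SEE) (hNST : T_NST) : T_UNQ := by
  classical
  intro G ω hloc
  have hB : Bldg (ign G.acc (Spt ω)) (seed ω) (wld ω) := (hLCG G ω hloc).2.2.2.1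
  obtain ⟨h1, h2, -, -, -⟩ := hSEE G ω
  have hA : ∀ w, wld ω (false :: w) = seed ω (false :: w) := by
    intro w
    rw [hB (false :: w)]
    have h3 : ¬ ∃ s, (false :: w) = key s ∧ ign G.acc (Spt ω) s (wld ω) := by
      rintro ⟨s, hs, -⟩
      unfold key at hs
      simp at hs
    rw [decide_eq_false h3, Bool.xor_false]
  have hT : ∀ (n : ℕ) (x : Xn n) (z : Ys n 0), wld ω (pst n x z) = true → G.n0 ≤ n ∧
      (jn (cfS ω n) univ (cfT ω n)).2 x = true ∧ z = (jn (cfS ω n) univ (cfT ω n)).1 x := by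
    intro n x z h
    have h3 : wld ω (pst n x z) = seed ω (pst n x z) := hA _
    rw [h3] at h
    rcases Nat.lt_or_ge n G.n0 with hn | hn
    · rw [h2 n x z hn] at h
      exact absurd h (by simp)
    · rw [h1 n x z hn] at h
      unfold tT tb at h
      rw [Bool.and_eq_true, decide_eq_true_eq] at h
      exact ⟨hn, h.1, h.2⟩
  refine ⟨?_, ?_⟩
  · intro u v v' hv hv' hO hO'
    obtain ⟨x, hx⟩ := ex_ofFn u u.length rfl
    obtain ⟨z, hz⟩ := ex_ofFn v (2 ^ (0 + 1) * u.length) (by rw [hv]; ring)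
    obtain ⟨z', hz'⟩ := ex_ofFn v' (2 ^ (0 + 1) * u.length) (by rw [hv']; ring)
    have e1 : wld ω (pst u.length x z) = true := by
      unfold pst
      rw [hx, hz]
      exact hO
    have e2 : wld ω (pst u.length x z') = true := by
      unfold pst
      rw [hx, hz']
      exact hO'
    rw [← hz, ← hz', (hT _ x z e1).2.2, (hT _ x z' e2).2.2]
  · intro n x hn
    constructor
    · rintro ⟨v, hv, hO⟩
      rw [List.length_ofFn] at hv
      obtain ⟨z, hz⟩ := ex_ofFn v (2 ^ (0 + 1) * n) (by rw [hv]; ring)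
      have e1 : wld ω (pst n x z) = true := by
        unfold pst
        rw [hz]
        exact hO
      exact (hT n x z e1).2.1
    · intro hx
      refine ⟨List.ofFn ((jn (cfS ω n) univ (cfT ω n)).1 x), ?_, ?_⟩
      · rw [List.length_ofFn, List.length_ofFn]
        ring
      · have e1 : wld ω (pst n x ((jn (cfS ω n) univ (cfT ω n)).1 x)) = true := by
          have h3 : wld ω (pst n x ((jn (cfS ω n) univ (cfT ω n)).1 x)) =
            seed ω (pst n x ((jn (cfS ω n) univ (cfT ω n)).1 x)) := hA _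
          rw [h3, h1 n x _ hn]
          unfold tT tb
          simp [hx]
        exact e1

end Pool.Agent.H1.GG
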